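import Pool.Agent.Q189.Octagon

/-!
# MP_902647_gt: an octagon which has a simplicial refinement with seven vertices
-/

set_option autoImplicit false

namespace Pool.Agent.Results.MP_902647_gt.OctagonSevenVertices

open Q189.SimpDefs Q189.SimpBuild Q189.Octagon

/-- **Theorem.** There are a polytope `C` in the plane, with exactly eight extreme points (so it is
not a simplex), and a simplicial refinement `(T, Ω_T, f, g)` of `(C, Ω_C)` in which the simplex `T`
has only seven vertices `v 0, ..., v 6`. -/
theorem result : ∃ (C : Set (Fin 2 → ℝ)) (v : Fin 7 → (Fin 7 → ℝ))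
    (f : PartialAffineOnto (hull v) C)
    (g : PartialAffineOnto (convexForms (hull v)) (convexForms C)),
    IsPolytope C ∧ ¬ IsSimplex C ∧ (C.extremePoints ℝ).ncard = 8 ∧
      IsSimplicialRefinement v C f g :=
  ⟨img A F, vtx 7, fmap A hA F, gmap A hA F H, polytope, not_simplex, ext_card, isRef A hA F H⟩

end Pool.Agent.Results.MP_902647_gt.OctagonSevenVertices
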